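import Pool.Agent.H46.Lib.R_seed8.H484R2.Inst

/-! The lattice data attached to a nonzero ideal: `Cont.Data`. -/

set_option autoImplicit false
open Filter Topology NumberField NumberField.InfinitePlace NumberField.Units
open NumberField.Units.dirichletUnitTheorem Module

namespace Pool.Agent.H484R2

lemma log_diff {u v c D : ℝ} (hc : 0 < c) (hu : c ≤ u) (hv : c ≤ v) (h : |u - v| ≤ D) :
    |Real.log u - Real.log v| ≤ D / c := by
  have hu0 : 0 < u := by linarith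
  have hv0 : 0 < v := by linarith
  have hD : 0 ≤ D := (abs_nonneg _).trans h
  have key : ∀ p q : ℝ, c ≤ p → c ≤ q → |p - q| ≤ D → Real.log p - Real.log q ≤ D / c := by
    intro p q hp hq hpq
    have hp0 : 0 < p := by linarith
    have hq0 : 0 < q := by linarith
    rw [← Real.log_div hp0.ne' hq0.ne']
    refine (Real.log_le_sub_one_of_pos (div_pos hp0 hq0)).trans ?_
    have h1 : p / q - 1 = (p - q) / q := by field_simp
    rw [h1, div_le_div_iff₀ hq0 hc]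
    have h2 : p - q ≤ D := (le_abs_self _).trans hpq
    nlinarith
  rw [abs_le]
  constructor
  · have := key v u hv hu (by rwa [abs_sub_comm])
    linarith
  · exact key u v hu hv h

lemma exp_bound {κ A ℓ σ R n : ℝ} (hκ : 0 < κ) (hκ1 : κ ≤ 1) (hA : 0 < A) (hn : 0 ≤ n)
    (hσ : 0 ≤ σ) (hσR : σ ≤ R) (h : n * Real.log (κ * A) ≤ ℓ) :
    Real.exp (-(σ * ℓ)) ≤ Real.exp (-(R * n * Real.log κ)) * A ^ (-(n * σ)) := by
  have hlk : Real.log κ ≤ 0 := Real.log_nonpos hκ.le hκ1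
  rw [Real.rpow_def_of_pos hA, ← Real.exp_add]
  apply Real.exp_le_exp.mpr
  rw [Real.log_mul hκ.ne' hA.ne'] at h
  have h1 : σ * (n * (Real.log κ + Real.log A)) ≤ σ * ℓ := by gcongr
  have h2 : R * n * Real.log κ ≤ σ * n * Real.log κ := by
    have : σ * n ≤ R * n := by gcongr
    nlinarith
  nlinarith

variable (K : Type) [Field K] [NumberField K]

lemma lN_nonneg {x : 𝓞 K} (hx : x ≠ 0) : 0 ≤ lN K (x : K) := by
  have hx' : (x : K) ≠ 0 := RingOfIntegers.coe_ne_zero_iff.mpr hx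
  rw [lN_eq K hx']
  apply Real.log_nonneg
  have h1 : (Algebra.norm ℚ (x : K)) = ((Algebra.norm ℤ x : ℤ) : ℚ) := by
    exact (Algebra.coe_norm_int x).symm
  rw [h1]
  have h2 : Algebra.norm ℤ x ≠ 0 := by
    rw [Ne, Algebra.norm_eq_zero_iff]
    exact hx
  have h3 : (1 : ℤ) ≤ |Algebra.norm ℤ x| := Int.one_le_abs h2
  rw [Rat.cast_intCast]
  exact_mod_cast h3

lemma lN_ge {x : K} {t : ℝ} (ht : 0 < t) (h : ∀ w : InfinitePlace K, t ≤ w x) :
    (finrank ℚ K : ℝ) * Real.log t ≤ lN K x := by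
  unfold lN
  have h3 : (∑ w : InfinitePlace K, (mult w : ℝ)) = finrank ℚ K := by
    exact_mod_cast InfinitePlace.sum_mult_eq (K := K)
  rw [← h3, Finset.sum_mul]
  refine Finset.sum_le_sum fun w _ => ?_
  gcongr
  exact h w

variable (J : Ideal (𝓞 K)) (hJ : J ≠ ⊥)

/-- the family -/
noncomputable def gJ (a : Idx K → ℤ) (s : ℂ) : ℂ :=
  open scoped Classical in
  if a = 0 then 0 else (psi K (xK K J hJ a) : ℂ) * Complex.exp (-(s * (lN K (xK K J hJ a) : ℂ)))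

lemma gJ_zero (s : ℂ) : gJ K J hJ 0 s = 0 := by simp [gJ]

lemma gJ_ne {a : Idx K → ℤ} (ha : a ≠ 0) (s : ℂ) : gJ K J hJ a s =
    (psi K (xK K J hJ a) : ℂ) * Complex.exp (-(s * (lN K (xK K J hJ a) : ℂ))) := by simp [gJ, ha]

lemma norm_exp_lN (s : ℂ) (l : ℝ) : ‖Complex.exp (-(s * (l : ℂ)))‖ = Real.exp (-(s.re * l)) := by
  rw [Complex.norm_exp]
  simp

lemma gJ_norm {a : Idx K → ℤ} (ha : a ≠ 0) (s : ℂ) : ‖gJ K J hJ a s‖ =
    psi K (xK K J hJ a) * Real.exp (-(s.re * lN K (xK K J hJ a))) := by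
  rw [gJ_ne K J hJ ha, norm_mul, norm_exp_lN, Complex.norm_real, Real.norm_eq_abs,
    abs_of_nonneg (psi_nonneg K _)]

lemma xK_nonneg_lN {a : Idx K → ℤ} (ha : a ≠ 0) : 0 ≤ lN K (xK K J hJ a) := by
  have h := xK_ne_zero K J hJ ha
  unfold xK at h ⊢
  exact lN_nonneg K (RingOfIntegers.coe_ne_zero_iff.mp h)

lemma gJ_norm_le_one (a : Idx K → ℤ) {s : ℂ} (hs : 0 ≤ s.re) : ‖gJ K J hJ a s‖ ≤ 1 := by
  by_cases ha : a = 0
  · subst ha; rw [gJ_zero, norm_zero]; exact zero_le_one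
  · rw [gJ_norm K J hJ ha]
    have h1 : Real.exp (-(s.re * lN K (xK K J hJ a))) ≤ 1 := by
      apply Real.exp_le_one_iff.mpr
      have := mul_nonneg hs (xK_nonneg_lN K J hJ ha)
      linarith
    calc psi K (xK K J hJ a) * Real.exp (-(s.re * lN K (xK K J hJ a))) ≤ 1 * 1 := by
          gcongr
          exact psi_le_one K _
      _ = 1 := one_mul 1

lemma lower_supp : ∃ κ : ℝ, 0 < κ ∧ κ ≤ 1 ∧ ∀ a : Idx K → ℤ, a ≠ 0 → psi K (xK K J hJ a) ≠ 0 →
    ∀ w : InfinitePlace K, κ * ‖a‖ ≤ w (xK K J hJ a) := by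
  obtain ⟨c, hc, h1⟩ := psi_supp K
  obtain ⟨ε, hε, h2⟩ := exists_lower K J hJ
  refine ⟨min 1 (c * ε), by positivity, min_le_left _ _, fun a ha hp w => ?_⟩
  obtain ⟨w', hw'⟩ := h2 a
  have h3 := h1 _ (xK_ne_zero K J hJ ha) hp w w'
  calc min 1 (c * ε) * ‖a‖ ≤ (c * ε) * ‖a‖ := by gcongr; exact min_le_right _ _
    _ = c * (ε * ‖a‖) := by ring
    _ ≤ c * w' (xK K J hJ a) := by gcongr
    _ ≤ _ := h3

lemma xK_nsmul (m : ℕ) (a : Idx K → ℤ) : xK K J hJ ((m : ℤ) • a) = (m : K) * xK K J hJ a := by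
  rw [xK_smul]; push_cast; rfl

lemma gJ_hom (m : ℕ) (hm : 1 ≤ m) (a : Idx K → ℤ) (s : ℂ) :
    gJ K J hJ ((m : ℤ) • a) s = (m : ℂ) ^ (-((Fintype.card (Idx K) : ℂ) * s)) * gJ K J hJ a s := by
  have hm0 : m ≠ 0 := by omega
  by_cases ha : a = 0
  · subst ha
    rw [smul_zero, gJ_zero, mul_zero]
  · have hma : (m : ℤ) • a ≠ 0 := smul_ne_zero (by exact_mod_cast hm0) ha
    have hx := xK_ne_zero K J hJ ha
    have hm' : (m : K) ≠ 0 := by exact_mod_cast hm0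
    rw [gJ_ne K J hJ hma, gJ_ne K J hJ ha, xK_nsmul, psi_nat_mul K hm0 hx, lN_mul K hm' hx,
      lN_nat K hm0, card_idx]
    have hmC : (m : ℂ) ≠ 0 := by exact_mod_cast hm0
    rw [Complex.cpow_def_of_ne_zero hmC]
    push_cast
    rw [show -(s * ((finrank ℚ K : ℂ) * Complex.log m + (lN K (xK K J hJ a) : ℂ))) =
      Complex.log m * -((finrank ℚ K : ℂ) * s) + -(s * (lN K (xK K J hJ a) : ℂ)) by ring,
      Complex.exp_add]
    ring

lemma gJ_diff (a : Idx K → ℤ) : Differentiable ℂ (gJ K J hJ a) := by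
  by_cases ha : a = 0
  · have : gJ K J hJ a = fun _ => 0 := by
      funext s; rw [ha, gJ_zero]
    rw [this]
    exact differentiable_const _
  · have : gJ K J hJ a = fun s => (psi K (xK K J hJ a) : ℂ) *
        Complex.exp (-(s * (lN K (xK K J hJ a) : ℂ))) := by
      funext s; rw [gJ_ne K J hJ ha]
    rw [this]
    fun_prop

lemma gJ_bound (R : ℝ) : ∃ C : ℝ, 0 ≤ C ∧ ∀ s : ℂ, ‖s‖ ≤ R → 0 ≤ s.re →
    ∀ a : Idx K → ℤ, a ≠ 0 →
    ‖gJ K J hJ a s‖ ≤ C * ‖a‖ ^ (-((Fintype.card (Idx K) : ℝ) * s.re)) := by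
  obtain ⟨κ, hκ, hκ1, h⟩ := lower_supp K J hJ
  refine ⟨Real.exp (-(R * finrank ℚ K * Real.log κ)), (Real.exp_pos _).le, fun s hsR hs a ha => ?_⟩
  rw [gJ_norm K J hJ ha, card_idx]
  by_cases hp : psi K (xK K J hJ a) = 0
  · rw [hp, zero_mul]
    positivity
  · have ha1 : 0 < ‖a‖ := by linarith [Cont.one_le_norm ha]
    have h1 := lN_ge K (t := κ * ‖a‖) (by positivity) (h a ha hp)
    have h2 := exp_bound hκ hκ1 ha1 (by positivity) hs ((Complex.re_le_norm s).trans hsR) h1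
    calc _ ≤ 1 * Real.exp (-(s.re * lN K (xK K J hJ a))) := by
          gcongr
          exact psi_le_one K _
      _ ≤ _ := by rw [one_mul]; exact h2

end Pool.Agent.H484R2
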