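import Pool.Agent.H46.Lib.R_seed8.H484R2.Inst2

/-! The lattice data attached to a nonzero ideal: `Cont.Data`, the Lipschitz property. -/

set_option autoImplicit false
open Filter Topology NumberField NumberField.InfinitePlace NumberField.Units
open NumberField.Units.dirichletUnitTheorem Module

namespace Pool.Agent.H484R2

lemma abs_place_sub {K : Type} [Field K] (w : InfinitePlace K) (x y : K) :
    |w x - w y| ≤ w (x - y) := by
  rw [← norm_embedding_eq w x, ← norm_embedding_eq w y, ← norm_embedding_eq w (x - y), map_sub]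
  exact abs_norm_sub_norm_le _ _

variable (K : Type) [Field K] [NumberField K] (J : Ideal (𝓞 K)) (hJ : J ≠ ⊥)

lemma norm_dig_le {m : ℕ} (η : Idx K → Fin m) : ‖Cont.dig m η‖ ≤ m := by
  refine (pi_norm_le_iff_of_nonneg (by positivity)).mpr fun i => ?_
  simp only [Cont.dig, Int.norm_natCast]
  exact_mod_cast (η i).2.le

/-- closeness of the logarithms -/
lemma close_logs : ∃ T κ' : ℝ, 1 ≤ T ∧ 0 < κ' ∧ κ' ≤ 1 ∧ ∀ m : ℕ, 1 ≤ m → ∀ a : Idx K → ℤ,
    T ≤ ‖a‖ → ∀ η : Idx K → Fin m,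
    (psi K (xK K J hJ ((m : ℤ) • a)) ≠ 0 ∨ psi K (xK K J hJ ((m : ℤ) • a + Cont.dig m η)) ≠ 0) →
    (∀ w : InfinitePlace K, κ' * ‖a‖ ≤ w (xK K J hJ ((m : ℤ) • a)) ∧
      κ' * ‖a‖ ≤ w (xK K J hJ ((m : ℤ) • a + Cont.dig m η)) ∧
      |Real.log (w (xK K J hJ ((m : ℤ) • a + Cont.dig m η))) -
        Real.log (w (xK K J hJ ((m : ℤ) • a)))| ≤ T / ‖a‖) := by
  obtain ⟨κ, hκ, hκ1, hlow⟩ := lower_supp K J hJ
  obtain ⟨Λ, hΛ, hup⟩ := exists_upper K J hJ
  refine ⟨4 * Λ / κ, κ / 4, ?_, by positivity, by linarith, ?_⟩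
  · rw [le_div_iff₀ hκ]; linarith
  intro m hm a hTa η hor w
  have hmR : (1 : ℝ) ≤ m := by exact_mod_cast hm
  have hA1 : 4 ≤ ‖a‖ := by
    refine le_trans ?_ hTa
    rw [le_div_iff₀ hκ]; linarith
  have hA0 : 0 < ‖a‖ := by linarith
  have hΛA : 4 * Λ ≤ κ * ‖a‖ := by
    rw [div_le_iff₀ hκ] at hTa; linarith
  have ha : a ≠ 0 := by
    rintro rfl
    simp at hA0
  set x := xK K J hJ ((m : ℤ) • a) with hx
  set x' := xK K J hJ ((m : ℤ) • a + Cont.dig m η) with hx'
  have hdiff : ∀ w : InfinitePlace K, |w x' - w x| ≤ Λ * m := by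
    intro w
    have h1 : x' - x = xK K J hJ (Cont.dig m η) := by
      rw [hx', hx, xK_add]; ring
    refine (abs_place_sub w x' x).trans ?_
    rw [h1]
    refine (hup _ w).trans ?_
    gcongr
    exact norm_dig_le K η
  have hbig : ∀ w : InfinitePlace K, κ * m * ‖a‖ / 4 ≤ w x ∧ κ * m * ‖a‖ / 4 ≤ w x' := by
    intro w
    have hd := hdiff w
    rw [abs_le] at hd
    have hk : Λ * m ≤ κ * m * ‖a‖ / 4 := by nlinarith
    rcases hor with h | h
    · have h2 : psi K (xK K J hJ a) ≠ 0 := by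
        rw [hx, xK_nsmul, psi_nat_mul K (by omega) (xK_ne_zero K J hJ ha)] at h
        exact h
      have h3 := hlow a ha h2 w
      have h4 : w x = m * w (xK K J hJ a) := by
        rw [hx, xK_nsmul, map_mul]
        simp
      have h5 : κ * m * ‖a‖ ≤ w x := by
        rw [h4]
        nlinarith
      have h6 : 0 ≤ κ * m * ‖a‖ := by positivity
      constructor <;> linarith [hd.1, hd.2]
    · have hbne : (m : ℤ) • a + Cont.dig m η ≠ 0 := by
        intro h0
        have h1 : ‖(m : ℤ) • a‖ = ‖Cont.dig m η‖ := by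
          have : (m : ℤ) • a = - Cont.dig m η := eq_neg_of_add_eq_zero_left h0
          rw [this, norm_neg]
        have h2 : ‖(m : ℤ) • a‖ = m * ‖a‖ := by
          rw [norm_smul]
          simp
        have h3 := norm_dig_le K η
        rw [← h1, h2] at h3
        nlinarith
      have hnorm : m * ‖a‖ / 2 ≤ ‖(m : ℤ) • a + Cont.dig m η‖ := by
        have h2 : ‖(m : ℤ) • a‖ = m * ‖a‖ := by
          rw [norm_smul]
          simp
        have h3 := norm_dig_le K η
        have h4 := norm_sub_le_norm_add ((m : ℤ) • a) (Cont.dig m η)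
        rw [h2] at h4
        nlinarith
      have h3 := hlow _ hbne h w
      rw [← hx'] at h3
      have h5 : κ * m * ‖a‖ / 2 ≤ w x' := by
        have : κ * (m * ‖a‖ / 2) ≤ κ * ‖(m : ℤ) • a + Cont.dig m η‖ := by gcongr
        linarith
      have h6 : 0 ≤ κ * m * ‖a‖ := by positivity
      constructor <;> linarith [hd.1, hd.2]
  obtain ⟨hb1, hb2⟩ := hbig w
  have hpos : 0 < κ * m * ‖a‖ / 4 := by positivity
  refine ⟨?_, ?_, ?_⟩
  · nlinarith [mul_pos hκ hA0]
  · nlinarith [mul_pos hκ hA0]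
  · have h7 := log_diff hpos hb2 hb1 (hdiff w)
    refine h7.trans (le_of_eq ?_)
    field_simp

lemma gJ_lip (m : ℕ) (hm : 1 ≤ m) (R : ℝ) (hR : 0 < R) : ∃ C : ℝ, 0 ≤ C ∧ ∀ s : ℂ, ‖s‖ ≤ R →
    0 ≤ s.re → ∀ a : Idx K → ℤ, a ≠ 0 → ∀ η : Idx K → Fin m,
    ‖gJ K J hJ ((m : ℤ) • a + Cont.dig m η) s - gJ K J hJ ((m : ℤ) • a) s‖ ≤
      C * ‖a‖ ^ (-((Fintype.card (Idx K) : ℝ) * s.re + 1)) := by
  obtain ⟨T, κ, hT, hκ, hκ1, hclose⟩ := close_logs K J hJ
  obtain ⟨Cψ, hCψ, hlip⟩ := psi_lip K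
  set n : ℝ := (finrank ℚ K : ℝ) with hn
  have hn1 : 1 ≤ n := by
    rw [hn]; exact_mod_cast (finrank_pos (R := ℚ) (M := K))
  set R0 : ℝ := T * (R * n + 1) with hR0
  have hR01 : 1 ≤ R0 := by nlinarith [mul_pos hR (by linarith : 0 < n)]
  have hTR0 : T ≤ R0 := by nlinarith [mul_pos hR (by linarith : 0 < n)]
  set C1 : ℝ := 2 * R0 ^ (n * R + 1) with hC1
  set C2 : ℝ := (Cψ + 2 * R * n) * T * Real.exp (-(R * n * Real.log κ)) with hC2
  have hC10 : 0 ≤ C1 := by positivity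
  have hC20 : 0 ≤ C2 := by positivity
  refine ⟨C1 + C2, by positivity, fun s hsR hs a ha η => ?_⟩
  rw [card_idx]
  change _ ≤ (C1 + C2) * ‖a‖ ^ (-(n * s.re + 1))
  have hA1 : 1 ≤ ‖a‖ := Cont.one_le_norm ha
  have hA0 : 0 < ‖a‖ := by linarith
  have hσR : s.re ≤ R := (Complex.re_le_norm s).trans hsR
  have hpow : 0 ≤ ‖a‖ ^ (-(n * s.re + 1)) := by positivity
  by_cases hsmall : ‖a‖ < R0
  · -- small a
    have h1 : ‖gJ K J hJ ((m : ℤ) • a + Cont.dig m η) s - gJ K J hJ ((m : ℤ) • a) s‖ ≤ 2 := by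
      refine (norm_sub_le _ _).trans ?_
      have := gJ_norm_le_one K J hJ ((m : ℤ) • a + Cont.dig m η) hs
      have := gJ_norm_le_one K J hJ ((m : ℤ) • a) hs
      linarith
    have h2 : 1 ≤ R0 ^ (n * R + 1) * ‖a‖ ^ (-(n * s.re + 1)) := by
      rw [Real.rpow_neg hA0.le, ← div_eq_mul_inv, one_le_div (by positivity)]
      calc ‖a‖ ^ (n * s.re + 1) ≤ R0 ^ (n * s.re + 1) := by
            apply Real.rpow_le_rpow hA0.le hsmall.le
            nlinarith
        _ ≤ R0 ^ (n * R + 1) := by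
            apply Real.rpow_le_rpow_of_exponent_le hR01
            nlinarith
    calc _ ≤ (2 : ℝ) := h1
      _ ≤ C1 * ‖a‖ ^ (-(n * s.re + 1)) := by rw [hC1]; nlinarith
      _ ≤ _ := by gcongr; linarith
  · push Not at hsmall
    have hTa : T ≤ ‖a‖ := hTR0.trans hsmall
    by_cases hor : psi K (xK K J hJ ((m : ℤ) • a)) ≠ 0 ∨
        psi K (xK K J hJ ((m : ℤ) • a + Cont.dig m η)) ≠ 0
    swap
    · push Not at hor
      have e1 : gJ K J hJ ((m : ℤ) • a) s = 0 := by
        unfold gJ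
        rw [hor.1]
        simp
      have e2 : gJ K J hJ ((m : ℤ) • a + Cont.dig m η) s = 0 := by
        unfold gJ
        rw [hor.2]
        simp
      rw [e1, e2, sub_zero, norm_zero]
      positivity
    have hc := hclose m hm a hTa η hor
    set x := xK K J hJ ((m : ℤ) • a) with hx
    set x' := xK K J hJ ((m : ℤ) • a + Cont.dig m η) with hx'
    set δ : ℝ := T / ‖a‖ with hδ
    have hδ0 : 0 ≤ δ := by positivity
    have hδ1 : δ * (R * n + 1) ≤ 1 := by
      rw [hδ, div_mul_eq_mul_div, div_le_one hA0]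
      exact hsmall
    -- nonvanishing
    have hne1 : (m : ℤ) • a ≠ 0 := smul_ne_zero (by positivity) ha
    have hwx' : ∀ w : InfinitePlace K, 0 < w x' := fun w => lt_of_lt_of_le (by positivity) (hc w).2.1
    have hne2 : (m : ℤ) • a + Cont.dig m η ≠ 0 := by
      intro h0
      obtain ⟨w⟩ := (inferInstance : Nonempty (InfinitePlace K))
      have := hwx' w
      rw [hx', h0] at this
      have h00 : xK K J hJ 0 = 0 := by
        rw [xK_eq_sum]; simp
      rw [h00, map_zero] at this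
      exact lt_irrefl _ this
    rw [gJ_ne K J hJ hne1, gJ_ne K J hJ hne2]
    rw [← hx, ← hx']
    set l := lN K x with hl
    set l' := lN K x' with hl'
    have hll : |l' - l| ≤ n * δ := lN_lip K fun w => (hc w).2.2
    have hψ : |psi K x' - psi K x| ≤ Cψ * δ := hlip x' x δ hδ0 fun w => (hc w).2.2
    set E : ℝ := Real.exp (-(R * n * Real.log κ)) * ‖a‖ ^ (-(n * s.re)) with hE
    have hE0 : 0 ≤ E := by positivity
    have he : ‖Complex.exp (-(s * (l : ℂ)))‖ ≤ E := by
      rw [norm_exp_lN]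
      exact exp_bound hκ hκ1 hA0 (by linarith) hs hσR
        (lN_ge K (by positivity) fun w => (hc w).1)
    have he' : ‖Complex.exp (-(s * (l' : ℂ)))‖ ≤ E := by
      rw [norm_exp_lN]
      exact exp_bound hκ hκ1 hA0 (by linarith) hs hσR
        (lN_ge K (by positivity) fun w => (hc w).2.1)
    have hz : ‖-(s * ((l' - l : ℝ) : ℂ))‖ ≤ R * (n * δ) := by
      rw [norm_neg, norm_mul, Complex.norm_real, Real.norm_eq_abs]
      gcongr
    have hz1 : ‖-(s * ((l' - l : ℝ) : ℂ))‖ ≤ 1 := by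
      refine hz.trans ?_
      nlinarith
    have hed : ‖Complex.exp (-(s * (l' : ℂ))) - Complex.exp (-(s * (l : ℂ)))‖ ≤
        (2 * R * n * δ) * E := by
      have h1 : Complex.exp (-(s * (l' : ℂ))) - Complex.exp (-(s * (l : ℂ))) =
          Complex.exp (-(s * (l : ℂ))) * (Complex.exp (-(s * ((l' - l : ℝ) : ℂ))) - 1) := by
        rw [mul_sub, mul_one, ← Complex.exp_add]
        congr 2
        push_cast
        ring
      rw [h1, norm_mul, mul_comm]
      have h2 := Complex.norm_exp_sub_one_le hz1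
      calc ‖Complex.exp (-(s * ((l' - l : ℝ) : ℂ))) - 1‖ * ‖Complex.exp (-(s * (l : ℂ)))‖
          ≤ (2 * (R * (n * δ))) * E := by
            gcongr
            exact h2.trans (by linarith)
        _ = _ := by ring
    have hfin : ‖(psi K x' : ℂ) * Complex.exp (-(s * (l' : ℂ))) -
        (psi K x : ℂ) * Complex.exp (-(s * (l : ℂ)))‖ ≤ (Cψ * δ) * E + 1 * ((2 * R * n * δ) * E) := by
      have h1 : (psi K x' : ℂ) * Complex.exp (-(s * (l' : ℂ))) -
        (psi K x : ℂ) * Complex.exp (-(s * (l : ℂ))) =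
        ((psi K x' - psi K x : ℝ) : ℂ) * Complex.exp (-(s * (l' : ℂ))) +
        (psi K x : ℂ) * (Complex.exp (-(s * (l' : ℂ))) - Complex.exp (-(s * (l : ℂ)))) := by
        push_cast
        ring
      rw [h1]
      refine (norm_add_le _ _).trans ?_
      rw [norm_mul, norm_mul, Complex.norm_real, Complex.norm_real, Real.norm_eq_abs,
        Real.norm_eq_abs, abs_of_nonneg (psi_nonneg K x)]
      gcongr
      exact psi_le_one K x
    refine hfin.trans ?_
    have hAA : ‖a‖ ^ (-(n * s.re + 1)) = ‖a‖ ^ (-(n * s.re)) / ‖a‖ := by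
      rw [neg_add, Real.rpow_add hA0, Real.rpow_neg_one]
      rfl
    calc (Cψ * δ) * E + 1 * ((2 * R * n * δ) * E)
        = C2 * ‖a‖ ^ (-(n * s.re + 1)) := by
          rw [hAA, hC2, hE, hδ]
          field_simp
      _ ≤ _ := by gcongr; linarith

theorem dataJ : Cont.Data (Idx K) (gJ K J hJ) where
  card_pos := by rw [card_idx]; exact finrank_pos
  han := gJ_diff K J hJ
  h0 := gJ_zero K J hJ
  hhom := gJ_hom K J hJ
  hb := fun R _ => gJ_bound K J hJ R
  hlip := fun m hm R hR => gJ_lip K J hJ m hm R hR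

end Pool.Agent.H484R2
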